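import Pool.Agent.H16R.FS.Loc
import Pool.Agent.R616.DI.Rea
import Pool.Agent.R616.DI.Cone

/-!
Operations without definability above finitely many c.e. operators.
-/

set_option autoImplicit false

namespace Pool.Agent.H16R.FS

open Nat.Partrec (Code)
open Encodable
open Pool.Agent.H639.LU Pool.Agent.H869R3.FN Pool.Agent.Y579.PP Pool.Agent.R616.DI
open Pool.Agent.Helper446.Defs Pool.Agent.Helper446.Oracle Pool.Agent.H16R.BO

theorem enum_u (u : Code → Code → Finset Code) (z₁ z₂ V : ℕ → Bool) (h : le (mu3 u z₁ z₂) V) :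
    ∃ e : Code, ∀ i j c : Code, W e V (encode (i, j, c)) ↔ c ∈ u i j := by
  have hmu : REIn (St V) (fun n => n ∈ St (mu3 u z₁ z₂)) := (turingReducible_iff.1 h).1
  have hS : REIn (St V) (fun n : ℕ => ∃ q : Code × Code × Code, encode q = n ∧
      q.2.2 ∈ u q.1 q.2.1) := by
    refine REIn.ex (S := fun (n : ℕ) (q : Code × Code × Code) => encode q = n ∧
      q.2.2 ∈ u q.1 q.2.1) (REIn.and ?_ ?_)
    · exact REIn.of_re (Pool.Agent.Helper446.RE.eq (by fun_prop) (by fun_prop))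
    · have h4 : REIn (St V) (fun x : ℕ × (Code × Code × Code) =>
          encode ((0, x.2, 0) : ℕ × (Code × Code × Code) × ℕ) ∈ St (mu3 u z₁ z₂)) :=
        REIn.comp (S := fun n => n ∈ St (mu3 u z₁ z₂)) hmu (by fun_prop)
      refine h4.of_eq fun x => ?_
      obtain ⟨x1, i, j, l⟩ := x
      change mu3 u z₁ z₂ _ = true ↔ _
      rw [mu3_u]
  obtain ⟨e, he⟩ := K10 V _ hS
  refine ⟨e, fun i j c => ?_⟩
  rw [← he]
  constructor
  · rintro ⟨q, hq, hl⟩
    have : q = (i, j, c) := encode_injective hq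
    subst this
    exact hl
  · intro hl
    exact ⟨(i, j, c), rfl, hl⟩

theorem mu3_le1 (u : Code → Code → Finset Code) (z₁ z₂ : ℕ → Bool) : le z₁ (mu3 u z₁ z₂) :=
  K4.2.2.2 (mu3 u z₁ z₂) z₁ (fun n => encode ((1, (Code.zero, Code.zero, Code.zero), n) :
    ℕ × (Code × Code × Code) × ℕ)) (by fun_prop) (fun n => by rw [mu3_1])

theorem mu3_le2 (u : Code → Code → Finset Code) (z₁ z₂ : ℕ → Bool) : le z₂ (mu3 u z₁ z₂) :=
  K4.2.2.2 (mu3 u z₁ z₂) z₂ (fun n => encode ((2, (Code.zero, Code.zero, Code.zero), n) :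
    ℕ × (Code × Code × Code) × ℕ)) (by fun_prop) (fun n => by rw [mu3_2])

/-- an arbitrary operation above one of finitely many c.e. operators -/
theorem above_list {F F₂ : Set (ℕ → Bool)} (hF₂ : F₂ ⊆ F) (hC : Clo F₂) (hC' : Cof F₂)
    (l D : List Code) (hN : ∀ r ∈ l, NT r F₂) (H : (ℕ → Bool) → ℕ → Bool) (z₀ : ℕ → Bool)
    (k : ℕ) (u : Code → Code → Finset Code) (hu : ∀ i j, (u i j).card ≤ k)
    (hX : ∀ X ∈ F, le z₀ X → le X (H X))
    (hinv : ∀ X ∈ F, le z₀ X → ∀ (i j : Code), ∀ Y ∈ F, Red i X Y → Red j Y X →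
      ∃ c ∈ u i j, Red c (H X) (H Y))
    (hT : ∀ Y ∈ F₂, le z₀ Y → le (H Y) Y ∨ ∃ d ∈ D, ∃ r ∈ l, Red d (H Y) (ch (W r Y))) :
    ∃ z, ∀ X ∈ F, le z X → le (H X) X ∨ le (ch (J X)) (H X) := by
  have back : ∀ X ∈ F, le z₀ X → ∀ Y ∈ F, le X Y → le Y X → le (H Y) Y → le (H X) X := by
    intro X hXF hX0 Y hYF h1 h2 h3
    obtain ⟨i, hi⟩ := (le_iff X Y).1 h2
    obtain ⟨j, hj⟩ := (le_iff Y X).1 h1
    obtain ⟨c, -, hc⟩ := hinv Y hYF (le_trans' hX0 h1) j i X hXF hj hi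
    exact le_trans' ((le_iff _ _).2 ⟨c, hc⟩) (le_trans' h3 h2)
  by_cases hl : l = []
  · obtain ⟨z₄, hz₄⟩ := cone_mem F₂ hC hC'
    obtain ⟨z, ha, hb⟩ := join2 z₀ z₄
    refine ⟨z, fun X hXF hXz => Or.inl ?_⟩
    obtain ⟨Y, hY, h1, h2⟩ := hz₄ X (le_trans' hb hXz)
    have h0 := le_trans' ha hXz
    rcases hT Y hY (le_trans' h0 h1) with h | ⟨d, -, r, hr, -⟩
    · exact back X hXF h0 Y (hF₂ hY) h1 h2 h
    · rw [hl] at hr
      exact absurd hr (by simp)
  · obtain ⟨κ, hκ, hT'⟩ := translate k D.length (fun t => D.getD t Code.zero)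
      (list_getD_computable D)
    obtain ⟨z₁, hz₁⟩ := local_list l hl F₂ hC hC' hN (k * D.length)
    refine ⟨mu3 u z₁ z₀, fun X hXF hXz => ?_⟩
    have h0 : le z₀ X := le_trans' (mu3_le2 u z₁ z₀) hXz
    have h1 : le z₁ X := le_trans' (mu3_le1 u z₁ z₀) hXz
    by_cases hXX : le (H X) X
    · exact Or.inl hXX
    right
    obtain ⟨e, he⟩ := enum_u u z₁ z₀ (H X) (le_trans' hXz (hX X hXF h0))
    obtain ⟨e', he1, he2⟩ := hT' (H X) e (fun i j => by
      have h5 : {c : Code | W e (H X) (encode (i, j, c))} = ↑(u i j) := by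
        ext c
        simp only [Set.mem_ofPred_eq, Finset.mem_coe]
        exact he i j c
      rw [h5, Set.encard_coe_eq_coe_finsetCard]
      exact_mod_cast hu i j)
    refine hz₁ X h1 (H X) (hX X hXF h0) e' he1 ?_
    intro i j Y hY hi hj
    have hXY : le X Y := (le_iff Y X).2 ⟨j, hj⟩
    have hYX : le Y X := (le_iff X Y).2 ⟨i, hi⟩
    obtain ⟨c, hc, hcr⟩ := hinv X hXF h0 i j Y (hF₂ hY) hi hj
    rcases hT Y hY (le_trans' h0 hXY) with h | ⟨d, hd, r, hr, hdr⟩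
    · exact absurd (back X hXF h0 Y (hF₂ hY) hXY hYX h) hXX
    · obtain ⟨t, ht1, ht2⟩ := List.getElem_of_mem hd
      have h6 : D.getD t Code.zero = d := by
        rw [List.getD_eq_getElem?_getD, List.getElem?_eq_getElem ht1, ← ht2]
        rfl
      refine ⟨κ (c, d), ?_, r, hr, hκ _ _ _ _ _ hcr hdr⟩
      have h7 := he2 i j c ((he i j c).2 hc) t ht1
      rwa [h6] at h7

end Pool.Agent.H16R.FS
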