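import Pool.Agent.H16R.BO.LG

/-!
Chains for a list of c.e. operators: the number of the level `q` belongs to the operator `ρ q`.
-/

set_option autoImplicit false

namespace Pool.Agent.H16R.FS

open Nat.Partrec (Code)
open Encodable
open Pool.Agent.H639.LU Pool.Agent.H869R3.FN Pool.Agent.Y579.PP Pool.Agent.R616.DI
open Pool.Agent.Helper446.Defs Pool.Agent.Helper446.Oracle Pool.Agent.H16R.BO

/-- nested trees and boundaries for varying operators -/
theorem chain_var {ρ : ℕ → Code} {F : Set (ℕ → Bool)} (h : ∀ q, NT (ρ q) F) :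
    ∀ (m : ℕ) (F' : Set (ℕ → Bool)), F' ⊆ F → Clo F' → Cof F' →
      ∃ (e : ℕ → Code) (g : ℕ → Str → Str) (ν : ℕ → ℕ), Computable e ∧ Computable ν ∧
        (∀ q ≤ m, Tr (e q) (g q)) ∧
        (∀ q < m, Rng (g q) ⊆ Bd (ρ (q + 1)) (Rng (g (q + 1))) (ν (q + 1))) ∧
        Rng (g m) ⊆ F' := by
  obtain ⟨B2a, B2b, B2c⟩ := B2 D1 B1
  intro m
  induction m with
  | zero =>
    intro F _ hcl hcof
    obtain ⟨c, G, hG⟩ := emb F hcl hcof
    exact ⟨fun _ => c, fun _ => G, fun _ => 0, Computable.const c, Computable.const 0,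
      fun q _ => hG.toTr, fun q hq => absurd hq (Nat.not_lt_zero q), B2b F c G hG hcl⟩
  | succ m ih =>
    intro F₁ hF₁ hcl hcof
    obtain ⟨c, G, hG⟩ := emb F₁ hcl hcof
    have hRsub : Rng G ⊆ F₁ := B2b F₁ c G hG hcl
    have hRcl : Clo (Rng G) := B2a c G hG.toTr
    have hRcof : Cof (Rng G) := B3 D1 B1 C2 K2 c G hG.toTr
    obtain ⟨n, hn⟩ := h (m + 1) (Rng G) (hRsub.trans hF₁) hRcl hRcof
    obtain ⟨e', g', ν', hce, hcν, htr, hsb, hsub⟩ := ih (Bd (ρ (m + 1)) (Rng G) n)
      (fun X hX => hF₁ (hRsub hX.1)) (B2c (ρ (m + 1)) (Rng G) n hRcl) hn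
    refine ⟨fun q => if q ≤ m then e' q else c, fun q => if q ≤ m then g' q else G,
      fun q => if q ≤ m then ν' q else n, S2_ite m e' hce c, S2_ite m ν' hcν n, ?_, ?_, ?_⟩
    · intro q hq
      by_cases h : q ≤ m
      · simp only [h, if_true]
        exact htr q h
      · simp only [h, if_false]
        exact hG.toTr
    · intro q hq
      have hq1 : q ≤ m := by omega
      by_cases h : q + 1 ≤ m
      · simp only [hq1, h, if_true]
        exact hsb q (by omega)
      · have hqm : q = m := by omega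
        subst hqm
        simp only [h, if_false, le_refl, if_true]
        exact hsub
    · have h : ¬ (m + 1 ≤ m) := by omega
      simp only [h, if_false]
      exact hRsub

/-- the operator of a level -/
def rho (l : List Code) (q : ℕ) : Code := l.getD (q % l.length) Code.zero

theorem rho_comp (l : List Code) : Computable (rho l) := by
  have h : Primrec (rho l) :=
    (Primrec.list_getD Code.zero).comp (Primrec.const l)
      (Primrec.nat_mod.comp Primrec.id (Primrec.const l.length))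
  exact h.to_comp

theorem rho_mem {l : List Code} (hl : l ≠ []) (q : ℕ) : rho l q ∈ l := by
  have h : q % l.length < l.length := Nat.mod_lt _ (List.length_pos_iff.2 hl)
  unfold rho
  rw [List.getD_eq_getElem?_getD, List.getElem?_eq_getElem h]
  exact List.getElem_mem h

/-- the operator whose values are the levels -/
theorem exists_rst (l : List Code) (K : ℕ) (ν : ℕ → ℕ) (hν : Computable ν) :
    ∃ r : Code, ∀ (Y : ℕ → Bool) (q : ℕ), W r Y q ↔ 1 ≤ q ∧ q ≤ K ∧ W (rho l q) Y (ν q) := by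
  obtain ⟨m1, m2, -, -⟩ := N2 N1
  have e1 : Computable (fun p : ℕ × Str => hst (rho l p.1) p.2 (ν p.1)) :=
    c1.2.2.1.comp (f := fun p : Code × Str × ℕ => hst p.1 p.2.1 p.2.2)
      (g := fun p : ℕ × Str => (rho l p.1, p.2, ν p.1))
      (((rho_comp l).comp Computable.fst).pair (Computable.snd.pair (hν.comp Computable.fst)))
  have e2 : Computable (fun p : ℕ × Str => decide (1 ≤ p.1 ∧ p.1 ≤ K)) := by
    have h : PrimrecPred (fun p : ℕ × Str => 1 ≤ p.1 ∧ p.1 ≤ K) :=
      (Primrec.nat_le.comp (Primrec.const 1) Primrec.fst).and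
        (Primrec.nat_le.comp Primrec.fst (Primrec.const K))
    exact h.decide.to_comp
  obtain ⟨r, hr⟩ := w_of_fun (Computable.cond e2 e1 (Computable.const false))
  refine ⟨r, fun Y q => ?_⟩
  rw [hr, m1]
  by_cases h : 1 ≤ q ∧ q ≤ K
  · simp only [h, and_self, decide_true, cond_true, true_and]
  · simp only [h, decide_false, cond_false, Bool.false_eq_true, exists_false]
    constructor
    · exact fun h' => h'.elim
    · exact fun h' => h ⟨h'.1, h'.2.1⟩

/-- the chain of the levels -/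
theorem chain_rst {l : List Code} {K : ℕ} {e : ℕ → Code} {g : ℕ → Str → Str} {ν : ℕ → ℕ}
    (hce : Computable e) (htr : ∀ q ≤ K, Tr (e q) (g q))
    (hsb : ∀ q < K, Rng (g q) ⊆ Bd (rho l (q + 1)) (Rng (g (q + 1))) (ν (q + 1))) {r : Code}
    (hr : ∀ (Y : ℕ → Bool) (q : ℕ), W r Y q ↔ 1 ≤ q ∧ q ≤ K ∧ W (rho l q) Y (ν q)) :
    Chain r K e g (fun q => q) := by
  refine ⟨hce, Computable.id, htr, fun q hq X hX => ?_⟩
  obtain ⟨h1, h2, h3⟩ := hsb q hq hX
  refine ⟨h1, fun h => h2 ((hr X (q + 1)).1 h).2.2, fun t => ?_⟩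
  obtain ⟨Z, hZ, h4, h5⟩ := h3 t
  exact ⟨Z, hZ, h4, (hr Z (q + 1)).2 ⟨by omega, by omega, h5⟩⟩

end Pool.Agent.H16R.FS
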