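import Pool.Agent.H16R.FS.Chn

/-!
The levels which are possible if the numbers enumerated by one of the operators are known.
-/

set_option autoImplicit false

namespace Pool.Agent.H16R.FS

open Nat.Partrec (Code)
open Encodable
open Pool.Agent.H639.LU Pool.Agent.H869R3.FN Pool.Agent.Y579.PP Pool.Agent.R616.DI
open Pool.Agent.Helper446.Defs Pool.Agent.Helper446.Oracle Pool.Agent.H16R.BO

/-- the largest level `p ≤ K` congruent to `b` with a visible number -/
def pzi (s b : ℕ) (ν : ℕ → ℕ) : ℕ → (ℕ → Bool) → ℕ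
  | 0, _ => 0
  | K + 1, Z => if (K + 1) % s = b ∧ Z (ν (K + 1)) = true then K + 1 else pzi s b ν K Z

/-- the finite version -/
def pz (s b : ℕ) (ν : ℕ → ℕ) : ℕ → Str → ℕ
  | 0, _ => 0
  | K + 1, σ => bif (decide ((K + 1) % s = b) && σ.getD (ν (K + 1)) false) then K + 1 else
      pz s b ν K σ

theorem pz_comp (s b : ℕ) (ν : ℕ → ℕ) (K : ℕ) : Computable (pz s b ν K) := by
  induction K with
  | zero => exact Computable.const 0
  | succ K ih =>
    have h1 : Computable (fun σ : Str => σ.getD (ν (K + 1)) false) :=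
      ((Primrec.list_getD false).comp Primrec.id (Primrec.const (ν (K + 1)))).to_comp
    have h2 : Computable (fun σ : Str => (decide ((K + 1) % s = b) && σ.getD (ν (K + 1)) false)) :=
      (Primrec.and.to_comp).comp (Computable.const _) h1
    exact Computable.cond h2 (Computable.const (K + 1)) ih

theorem pz_eq (s b : ℕ) (ν : ℕ → ℕ) (Z : ℕ → Bool) (K t : ℕ) (h : ∀ p ≤ K, ν p < t) :
    pz s b ν K (seg Z t) = pzi s b ν K Z := by
  induction K with
  | zero => rfl
  | succ K ih =>
    have ih' := ih fun p hp => h p (by omega)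
    have h1 : (seg Z t).getD (ν (K + 1)) false = Z (ν (K + 1)) :=
      seg_getD _ _ _ (h (K + 1) le_rfl)
    show (bif (decide ((K + 1) % s = b) && (seg Z t).getD (ν (K + 1)) false) then K + 1 else
      pz s b ν K (seg Z t)) = if (K + 1) % s = b ∧ Z (ν (K + 1)) = true then K + 1 else
      pzi s b ν K Z
    rw [h1, ih']
    by_cases h2 : (K + 1) % s = b ∧ Z (ν (K + 1)) = true
    · rw [if_pos h2]
      simp [h2.1, h2.2]
    · rw [if_neg h2]
      have h3 : (decide ((K + 1) % s = b) && Z (ν (K + 1))) = false := by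
        by_cases h4 : (K + 1) % s = b
        · have h5 : Z (ν (K + 1)) = false := by
            cases h6 : Z (ν (K + 1)) with
            | true => exact absurd ⟨h4, h6⟩ h2
            | false => rfl
          simp [h5]
        · simp [h4]
      rw [h3]
      rfl

theorem pzi_spec (s b : ℕ) (ν : ℕ → ℕ) (Z : ℕ → Bool) (K : ℕ) :
    (pzi s b ν K Z = 0 ∨ (1 ≤ pzi s b ν K Z ∧ pzi s b ν K Z ≤ K ∧ pzi s b ν K Z % s = b ∧
      Z (ν (pzi s b ν K Z)) = true)) ∧
    ∀ p, 1 ≤ p → p ≤ K → p % s = b → Z (ν p) = true → p ≤ pzi s b ν K Z := by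
  induction K with
  | zero =>
    refine ⟨Or.inl rfl, fun p h1 h2 => ?_⟩
    omega
  | succ K ih =>
    have e : pzi s b ν (K + 1) Z = if (K + 1) % s = b ∧ Z (ν (K + 1)) = true then K + 1 else
      pzi s b ν K Z := rfl
    by_cases h2 : (K + 1) % s = b ∧ Z (ν (K + 1)) = true
    · rw [if_pos h2] at e
      rw [e]
      exact ⟨Or.inr ⟨by omega, le_rfl, h2.1, h2.2⟩, fun p _ h _ _ => h⟩
    · rw [if_neg h2] at e
      rw [e]
      refine ⟨?_, fun p hp1 hp2 hp3 hp4 => ?_⟩
      · rcases ih.1 with h | ⟨h3, h4, h5, h6⟩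
        · exact Or.inl h
        · exact Or.inr ⟨h3, by omega, h5, h6⟩
      · rcases Nat.lt_succ_iff_lt_or_eq.1 (Nat.lt_succ_of_le hp2) with h | h
        · exact ih.2 p hp1 (by omega) hp3 hp4
        · subst h
          exact absurd ⟨hp3, hp4⟩ h2

/-- the level is determined up to `s` possibilities -/
theorem level {s b K q : ℕ} (hs : 0 < s) (hb : b < s) (ν : ℕ → ℕ) (Z : ℕ → Bool)
    (hq : q ≤ K) (hZ : ∀ p, 1 ≤ p → p ≤ K → p % s = b → (Z (ν p) = true ↔ p ≤ q)) :
    ∃ o < s, q = pzi s b ν K Z + o := by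
  obtain ⟨h1, h2⟩ := pzi_spec s b ν Z K
  set P := pzi s b ν K Z with hP
  have h3 : P ≤ q := by
    rcases h1 with h | ⟨h4, h5, h6, h7⟩
    · omega
    · exact (hZ P h4 h5 h6).1 h7
  have h4 : q < P + s := by
    by_contra hcon
    push Not at hcon
    rcases h1 with h | ⟨g4, g5, g6, g7⟩
    · rw [h, zero_add] at hcon
      by_cases hb0 : b = 0
      · have := h2 s hs (by omega) (by rw [Nat.mod_self, hb0])
          ((hZ s hs (by omega) (by rw [Nat.mod_self, hb0])).2 hcon)
        omega
      · have := h2 b (by omega) (by omega) (Nat.mod_eq_of_lt hb)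
          ((hZ b (by omega) (by omega) (Nat.mod_eq_of_lt hb)).2 (by omega))
        omega
    · have g8 : (P + s) % s = b := by rw [Nat.add_mod_right, g6]
      have := h2 (P + s) (by omega) (by omega) g8 ((hZ (P + s) (by omega) (by omega) g8).2 hcon)
      omega
  exact ⟨q - P, by omega, by omega⟩

/-- the program which computes the level from the numbers of the operator `b` and the offset `o` -/
theorem exists_dbo (s K : ℕ) (ν : ℕ → ℕ) (b o : ℕ) :
    ∃ d : Code, ∀ (Z V : ℕ → Bool),
      (∀ n, V n = true ↔ 1 ≤ n ∧ n ≤ pzi s b ν K Z + o) → Red d Z V := by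
  obtain ⟨M, hM⟩ : ∃ M, ∀ p ≤ K, ν p < M := by
    refine ⟨(Finset.range (K + 1)).sup ν + 1, fun p hp => ?_⟩
    have : ν p ≤ (Finset.range (K + 1)).sup ν :=
      Finset.le_sup (f := ν) (Finset.mem_range.2 (by omega))
    omega
  have e1 : Computable (fun p : ℕ × Str => pz s b ν K p.2) := (pz_comp s b ν K).comp Computable.snd
  have e2 : Computable (fun p : ℕ × Str => (p.1, pz s b ν K p.2)) := Computable.fst.pair e1
  have e3 : Computable (fun p : ℕ × ℕ => decide (1 ≤ p.1 ∧ p.1 ≤ p.2 + o)) := by
    have h : PrimrecPred (fun p : ℕ × ℕ => 1 ≤ p.1 ∧ p.1 ≤ p.2 + o) :=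
      (Primrec.nat_le.comp (Primrec.const 1) Primrec.fst).and
        (Primrec.nat_le.comp Primrec.fst (Primrec.nat_add.comp Primrec.snd (Primrec.const o)))
    exact h.decide.to_comp
  have e4 : Computable (fun p : ℕ × Str => decide (1 ≤ p.1 ∧ p.1 ≤ pz s b ν K p.2 + o)) :=
    e3.comp e2
  have e5 : Computable (fun p : ℕ × Str => decide (M ≤ p.2.length)) := by
    have h : PrimrecPred (fun p : ℕ × Str => M ≤ p.2.length) :=
      Primrec.nat_le.comp (Primrec.const M) (Primrec.list_length.comp Primrec.snd)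
    exact h.decide.to_comp
  obtain ⟨d, hd⟩ := red_of_fun (Computable.cond e5
    (Computable.cond e4 (Computable.const (some 1)) (Computable.const (some 0)))
    (Computable.const none))
  refine ⟨d, fun Z V hV => ?_⟩
  rw [hd]
  intro n v
  have key : ∀ t, (bif decide (M ≤ (seg Z t).length) then
      (bif decide (1 ≤ n ∧ n ≤ pz s b ν K (seg Z t) + o) then some 1 else some 0) else none) =
      if M ≤ t then some (V n).toNat else (none : Option ℕ) := by
    intro t
    rw [seg_len]
    by_cases h : M ≤ t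
    · rw [pz_eq s b ν Z K t fun p hp => lt_of_lt_of_le (hM p hp) h]
      simp only [h, decide_true, cond_true, if_true]
      by_cases h2 : 1 ≤ n ∧ n ≤ pzi s b ν K Z + o
      · rw [(hV n).2 h2]
        simp [h2]
      · have h3 : V n = false := by
          cases h4 : V n with
          | true => exact absurd ((hV n).1 h4) h2
          | false => rfl
        rw [h3]
        simp only [h2, decide_false, cond_false]
        rfl
    · simp [h]
  simp only [key]
  constructor
  · rintro ⟨t, ht⟩
    by_cases h : M ≤ t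
    · rw [if_pos h] at ht
      exact (Option.some_inj.1 ht).symm
    · rw [if_neg h] at ht
      exact absurd ht (by simp)
  · rintro rfl
    exact ⟨M, by simp⟩

end Pool.Agent.H16R.FS
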