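import Pool.Agent.H16R.FS.Shp

/-!
Solutions with chosen indices, and the choice of representatives.
-/

set_option autoImplicit false

namespace Pool.Agent.H16R.FS

open Nat.Partrec (Code)
open Encodable
open Pool.Agent.H639.LU Pool.Agent.H869R3.FN Pool.Agent.Y579.PP Pool.Agent.R616.DI
open Pool.Agent.Helper446.Defs Pool.Agent.Helper446.Oracle Pool.Agent.H16R.BO

theorem solH (bc : P_BC) (F : Set (ℕ → Bool)) (hFm : MeasurableSet F) (hF : Cof F)
    (b : (ℕ → Bool) → ℕ) (hb : Measurable b) (H : (ℕ → Bool) → ℕ → Bool) (z₀ : ℕ → Bool)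
    (h : ∀ X ∈ F, le z₀ X → le X (H X) ∧ ¬ le (ch (J X)) (H X) ∧
      ∃ r d : Code, encode r ≤ b X ∧ encode d ≤ b X ∧ ¬ le (ch (W r X)) X ∧
        Red d (H X) (ch (W r X))) (k : ℕ) :
    ∃ i j : Code, ∀ L : Finset Code, L.card ≤ k → ∀ z : ℕ → Bool,
      ∃ X ∈ F, ∃ Y ∈ F, le z X ∧ Red i X Y ∧ Red j Y X ∧ ∀ c ∈ L, ¬ Red c (H X) (H Y) := by
  refine no_cand H F k fun u z₂ hu hinv => ?_
  obtain ⟨z₃, h3a, h3b⟩ := join2 z₀ z₂
  obtain ⟨z, hz⟩ := dichH bc F hFm hF b hb H z₃ k u hu fun X hX hX3 => by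
    obtain ⟨g1, g2, g3⟩ := h X hX (le_trans' h3a hX3)
    exact ⟨g1, fun _ => g3, hinv X hX (le_trans' h3b hX3)⟩
  obtain ⟨z', h4, h5⟩ := join2 z z₀
  obtain ⟨X, hX, hzX⟩ := hF z'
  obtain ⟨g1, g2, r, d, -, -, g3, g4⟩ := h X hX (le_trans' h5 hzX)
  rcases hz X hX (le_trans' h4 hzX) with h6 | h6
  · exact g3 (le_trans' ((le_iff _ _).2 ⟨d, g4⟩) h6)
  · exact g2 h6

/-- the choice of representatives -/
theorem repH (bc : P_BC) (r : Code) (z₀ : ℕ → Bool)
    (hr : ∀ X, le z₀ X → ¬ le (ch (W r X)) X ∧ le X (ch (W r X)) ∧ ¬ le (ch (J X)) (ch (W r X)))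
    (b : (ℕ → Bool) → ℕ) (hb : Measurable b) (s : (ℕ → Bool) → ℕ → Bool)
    (hs : ∀ X, le z₀ X → le X (s X) ∧ ∃ c : Code, encode c ≤ b X ∧ Red c X (s X)) (k : ℕ) :
    ∃ i j : Code, ∀ L : Finset Code, L.card ≤ k → ∀ z : ℕ → Bool,
      ∃ X Y : ℕ → Bool, le z X ∧ Red i X Y ∧ Red j Y X ∧
        ∀ c ∈ L, ¬ Red c (ch (W r (s X))) (ch (W r (s Y))) := by
  obtain ⟨d, hd⟩ := exists_id
  choose f hf using fun c : Code => w_comp r c
  -- the bound
  set φ : ℕ → ℕ := fun m => (Finset.range (m + 1)).sup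
    (fun n => encode (f (Denumerable.ofNat Code n))) with hφ
  have hφ' : ∀ (m : ℕ) (c : Code), encode c ≤ m → encode (f c) ≤ φ m := by
    intro m c hc
    have h1 := Finset.le_sup (f := fun n => encode (f (Denumerable.ofNat Code n)))
      (Finset.mem_range.2 (show encode c < m + 1 by omega))
    simpa using h1
  have hbm : Measurable (fun X => max (φ (b X)) (encode d)) :=
    ((measurable_from_top (f := φ)).comp hb).max measurable_const
  obtain ⟨i, j, hij⟩ := solH bc Set.univ MeasurableSet.univ cof_univ _ hbm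
    (fun X => ch (W r (s X))) z₀ (fun X _ hX => by
      obtain ⟨h1, c, h2, h3⟩ := hs X hX
      obtain ⟨g1, g2, g3⟩ := hr (s X) (le_trans' hX h1)
      have h4 : le (s X) X := (le_iff _ _).2 ⟨c, h3⟩
      have h5 : ch (W (f c) X) = ch (W r (s X)) := ch_congr (hf c X (s X) h3)
      refine ⟨le_trans' h1 g2, fun h => g3 (le_trans' ?_ h), f c, d,
        (hφ' _ _ h2).trans (le_max_left _ _), le_max_right _ _, ?_, ?_⟩
      · obtain ⟨l, hl⟩ := jump_unif c
        exact (le_iff _ _).2 ⟨l, hl X (s X) h3⟩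
      · rw [h5]
        exact fun h => g1 (le_trans' h h1)
      · rw [h5]
        exact hd _) k
  refine ⟨i, j, fun L hL z => ?_⟩
  obtain ⟨X, -, Y, -, h1, h2, h3, h4⟩ := hij L hL z
  exact ⟨X, Y, h1, h2, h3, h4⟩

end Pool.Agent.H16R.FS
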