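import Pool.Agent.H16R.FS.Dbo
import Pool.Agent.H16R.BO.RG
import Pool.Agent.H639.LU.Final3

/-!
The local theorem for finitely many c.e. operators on a closed set.
-/

set_option autoImplicit false

namespace Pool.Agent.H16R.FS

open Nat.Partrec (Code)
open Encodable
open Pool.Agent.H639.LU Pool.Agent.H869R3.FN Pool.Agent.Y579.PP Pool.Agent.R616.DI
open Pool.Agent.Helper446.Defs Pool.Agent.Helper446.Oracle Pool.Agent.H16R.BO

theorem list_getD_computable (L : List Code) : Computable (fun t : ℕ => L.getD t Code.zero) :=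
  ((Primrec.list_getD Code.zero).comp (Primrec.const L) Primrec.id).to_comp

/-- a finite number of translations of the candidates -/
theorem translate (k N : ℕ) (D : ℕ → Code) (hD : Computable D) :
    ∃ κ : Code × Code → Code, (∀ (c d : Code) (X Y Z : ℕ → Bool), Red c X Y → Red d Y Z →
      Red (κ (c, d)) X Z) ∧
    ∀ (V : ℕ → Bool) (e : Code), (∀ i j : Code, {c : Code | W e V (encode (i, j, c))}.encard ≤ k) →
      ∃ e' : Code, (∀ i j : Code, {c : Code | W e' V (encode (i, j, c))}.encard ≤ (k * N : ℕ)) ∧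
        ∀ i j c : Code, W e V (encode (i, j, c)) → ∀ t < N,
          W e' V (encode (i, j, κ (c, D t))) := by
  obtain ⟨κ, hκ, hκ'⟩ := K7
  refine ⟨κ, fun c d X Y Z h1 h2 => hκ' _ _ _ _ _ h1 h2, fun V e he => ?_⟩
  have hκd : Computable (fun x : ℕ × (ℕ × (Code × Code × Code)) =>
      encode ((x.2.2.1, x.2.2.2.1, κ (x.2.2.2.2, D x.2.1)) : Code × Code × Code)) := by
    refine Computable.encode.comp (Computable.pair (by fun_prop) (Computable.pair (by fun_prop) ?_))
    exact hκ.comp (Computable.pair (by fun_prop) (hD.comp (by fun_prop)))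
  have hS : REIn (St V) (fun n : ℕ => ∃ q : ℕ × (Code × Code × Code), q.1 < N ∧
      (encode ((q.2.1, q.2.2.1, κ (q.2.2.2, D q.1)) : Code × Code × Code) = n ∧
        W e V (encode q.2))) := by
    refine REIn.ex (S := fun (n : ℕ) (q : ℕ × (Code × Code × Code)) => q.1 < N ∧
      (encode ((q.2.1, q.2.2.1, κ (q.2.2.2, D q.1)) : Code × Code × Code) = n ∧
        W e V (encode q.2))) (REIn.and ?_ (REIn.and ?_ ?_))
    · refine REIn.of_re ?_
      have h1 : PrimrecPred (fun x : ℕ × (ℕ × (Code × Code × Code)) => x.2.1 < N) :=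
        Primrec.nat_lt.comp (Primrec.fst.comp Primrec.snd) (Primrec.const N)
      exact h1.computablePred.to_re
    · exact REIn.of_re (Pool.Agent.Helper446.RE.eq hκd (by fun_prop))
    · exact REIn.comp (S := W e V) ((K5 K2).1 e V) (by fun_prop)
  obtain ⟨e', he'⟩ := K10 V _ hS
  refine ⟨e', fun i j => ?_, fun i j c hc t ht => ?_⟩
  · have h1 : {c : Code | W e' V (encode (i, j, c))} ⊆
        (fun p : ℕ × Code => κ (p.2, D p.1)) '' ((↑(Finset.range N) : Set ℕ) ×ˢ
          {c : Code | W e V (encode (i, j, c))}) := by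
      intro c hc
      have h2 : W e' V (encode (i, j, c)) := hc
      rw [← he'] at h2
      obtain ⟨⟨t, i', j', c'⟩, h3, h4, h5⟩ := h2
      have h6 := encode_injective h4
      simp only [Prod.mk.injEq] at h6
      obtain ⟨rfl, rfl, h7⟩ := h6
      exact ⟨(t, c'), ⟨by simpa using h3, h5⟩, h7⟩
    refine (Set.encard_le_encard h1).trans ((Set.encard_image_le _ _).trans ?_)
    rw [Set.encard_prod, Set.encard_coe_eq_coe_finsetCard, Finset.card_range, mul_comm,
      Nat.cast_mul]
    exact mul_le_mul' (he i j) le_rfl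
  · rw [← he']
    exact ⟨(t, i, j, c), ht, rfl, hc⟩

theorem local_list (l : List Code) (hl : l ≠ []) (F : Set (ℕ → Bool)) (hF : Clo F) (hF' : Cof F)
    (hN : ∀ r ∈ l, NT r F) (k : ℕ) :
    ∃ z₁ : ℕ → Bool, ∀ X, le z₁ X → ∀ V : ℕ → Bool, le X V → ∀ e : Code,
      (∀ i j : Code, {c : Code | W e V (encode (i, j, c))}.encard ≤ k) →
      (∀ i j : Code, ∀ Y ∈ F, Red i X Y → Red j Y X →
        ∃ c : Code, W e V (encode (i, j, c)) ∧ ∃ r ∈ l, Red c V (ch (W r Y))) →
      le (ch (J X)) V := by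
  have hs : 0 < l.length := List.length_pos_iff.2 hl
  set s := l.length with hsdef
  set N := s * s with hNdef
  obtain ⟨e, g, ν, hce, hcν, htr, hsb, hsub⟩ :=
    chain_var (ρ := rho l) (fun q => hN _ (rho_mem hl q)) (k * N) F (fun _ h => h) hF hF'
  obtain ⟨r, hr⟩ := exists_rst l (k * N) ν hcν
  have hch : Chain r (k * N) e g (fun q => q) := chain_rst hce htr hsb hr
  obtain ⟨z₁, hz₁⟩ := LG RG r (k * N) e g (fun q => q) hch F hF hsub
  choose dd hdd using fun b o => exists_dbo s (k * N) ν b o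
  set L : List Code := (List.range N).map (fun t => dd (t / s) (t % s)) with hL
  set D : ℕ → Code := fun t => L.getD t Code.zero with hD
  have hDt : ∀ b < s, ∀ o < s, ∃ t < N, D t = dd b o := by
    intro b hb o ho
    refine ⟨o + s * b, ?_, ?_⟩
    · calc o + s * b < s + s * b := by omega
        _ = s * (b + 1) := by ring
        _ ≤ s * s := Nat.mul_le_mul_left s hb
    · have h1 : o + s * b < N := by
        calc o + s * b < s + s * b := by omega
          _ = s * (b + 1) := by ring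
          _ ≤ s * s := Nat.mul_le_mul_left s hb
      have h2 : (o + s * b) / s = b := by
        rw [Nat.add_mul_div_left _ _ hs, Nat.div_eq_of_lt ho, zero_add]
      have h3 : (o + s * b) % s = o := by
        rw [Nat.add_mul_mod_self_left, Nat.mod_eq_of_lt ho]
      simp only [hD, hL]
      rw [List.getD_eq_getElem?_getD, List.getElem?_map, List.getElem?_range h1]
      simp only [Option.map_some, Option.getD_some]
      rw [h2, h3]
  obtain ⟨κ, hκ, hT⟩ := translate k N D (list_getD_computable L)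
  refine ⟨z₁, fun X hX V hV e₁ hb hred => ?_⟩
  obtain ⟨e', he1, he2⟩ := hT V e₁ hb
  refine hz₁ X hX V hV e' he1 ?_
  rintro i j Y hY ⟨q, hq1, hq2, hq3⟩ hi hj
  obtain ⟨c, hc, r', hr', hcr⟩ := hred i j Y hY hi hj
  obtain ⟨b, hb1, hb2⟩ := List.getElem_of_mem hr'
  have hZ : ∀ p, 1 ≤ p → p ≤ k * N → p % s = b → (ch (W r' Y) (ν p) = true ↔ p ≤ q) := by
    intro p h1 h2 h3
    rw [ch_true, ← hq3 p h1 h2, hr]
    have h4 : rho l p = r' := by
      unfold rho
      rw [← hsdef, h3, List.getD_eq_getElem?_getD, List.getElem?_eq_getElem hb1, ← hb2]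
      rfl
    rw [h4]
    exact ⟨fun h => ⟨h1, h2, h⟩, fun h => h.2.2⟩
  obtain ⟨o, ho, hqo⟩ := level hs hb1 ν (ch (W r' Y)) hq1 hZ
  obtain ⟨t, ht, hDtt⟩ := hDt b hb1 o ho
  refine ⟨κ (c, D t), he2 i j c hc t ht, hκ _ _ _ _ _ hcr ?_⟩
  rw [hDtt]
  refine hdd b o _ _ fun n => ?_
  rw [ch_true, ← hqo]
  by_cases h : 1 ≤ n ∧ n ≤ k * N
  · rw [hq3 n h.1 h.2]
    exact ⟨fun h2 => ⟨h.1, h2⟩, fun h2 => h2.2⟩
  · rw [hr]
    constructor
    · exact fun h2 => absurd ⟨h2.1, h2.2.1⟩ h
    · exact fun h2 => absurd ⟨h2.1, h2.2.trans hq1⟩ h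

end Pool.Agent.H16R.FS
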