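import Pool.Agent.H16R.FS.Abo
import Pool.Agent.H16R.BO.Stm

/-!
Operations with a Borel bound for the index.
-/

set_option autoImplicit false

namespace Pool.Agent.H16R.FS

open Nat.Partrec (Code)
open Encodable
open Pool.Agent.H639.LU Pool.Agent.H869R3.FN Pool.Agent.Y579.PP Pool.Agent.R616.DI
open Pool.Agent.Helper446.Defs Pool.Agent.Helper446.Oracle Pool.Agent.H16R.BO

theorem join_nat (z : ℕ → ℕ → Bool) : ∃ y : ℕ → Bool, ∀ m, le (z m) y := by
  refine ⟨fun p => z p.unpair.1 p.unpair.2, fun m => ?_⟩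
  exact K4.2.2.2 _ _ (fun n => Nat.pair m n)
    ((Primrec₂.natPair.comp (Primrec.const _) Primrec.id).to_comp) (fun n => by simp)

/-- a function with values in the numbers is constant on a set with members of cofinally many
degrees -/
theorem exists_const (F : Set (ℕ → Bool)) (hF : Cof F) (b : (ℕ → Bool) → ℕ) :
    ∃ m, Cof (F ∩ {X | b X = m}) := by
  by_contra hcon
  push Not at hcon
  have h1 : ∀ m, ∃ z : ℕ → Bool, ∀ X ∈ F, b X = m → ¬ le z X := by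
    intro m
    have h2 := hcon m
    unfold Cof at h2
    push Not at h2
    obtain ⟨z, hz⟩ := h2
    exact ⟨z, fun X hX hb => hz X ⟨hX, hb⟩⟩
  choose z hz using h1
  obtain ⟨y, hy⟩ := join_nat z
  obtain ⟨X, hX, hyX⟩ := hF y
  exact hz (b X) X hX rfl (le_trans' (hy (b X)) hyX)

theorem NT.mono {r : Code} {F F' : Set (ℕ → Bool)} (h : NT r F) (hF : F' ⊆ F) : NT r F' :=
  fun F'' h1 h2 h3 => h F'' (h1.trans hF) h2 h3

theorem thin (l : List Code) : ∀ F : Set (ℕ → Bool), Clo F → Cof F →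
    ∃ F₂ ⊆ F, Clo F₂ ∧ Cof F₂ ∧
      ∀ r ∈ l, NT r F₂ ∨ ∃ c : Code, ∀ Y ∈ F₂, Red c Y (ch (W r Y)) := by
  induction l with
  | nil =>
    intro F hF hF'
    exact ⟨F, fun _ h => h, hF, hF', by simp⟩
  | cons r l ih =>
    intro F hF hF'
    obtain ⟨F₂, h1, h2, h3, h4⟩ := ih F hF hF'
    rcases nt_or r F₂ with h | ⟨F₃, g1, g2, g3, c, hc⟩
    · refine ⟨F₂, h1, h2, h3, fun r' hr' => ?_⟩
      rcases List.mem_cons.1 hr' with rfl | hr'
      · exact Or.inl h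
      · exact h4 r' hr'
    · refine ⟨F₃, g1.trans h1, g2, g3, fun r' hr' => ?_⟩
      rcases List.mem_cons.1 hr' with rfl | hr'
      · exact Or.inr ⟨c, hc⟩
      · rcases h4 r' hr' with h5 | ⟨c', hc'⟩
        · exact Or.inl (NT.mono h5 g1)
        · exact Or.inr ⟨c', fun Y hY => hc' Y (g1 hY)⟩

theorem thinR (M : List (List Code)) : ∀ F : Set (ℕ → Bool), Clo F → Cof F →
    ∃ F₂ ⊆ F, Clo F₂ ∧ Cof F₂ ∧ ∃ P : List (Code × Code), (∀ p ∈ P, NT p.1 F₂) ∧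
      ∀ L ∈ M, (∃ c : Code, ∀ Y ∈ F₂, Red c Y (rea L Y)) ∨
        ∃ p ∈ P, ∀ Y ∈ F₂, Red p.2 (rea L Y) (ch (W p.1 Y)) := by
  induction M with
  | nil =>
    intro F hF hF'
    exact ⟨F, fun _ h => h, hF, hF', [], by simp, by simp⟩
  | cons L M ih =>
    intro F hF hF'
    obtain ⟨F₂, h1, h2, h3, P, hP, h4⟩ := ih F hF hF'
    obtain ⟨d, hd⟩ := exists_id
    rcases rea_step L F₂ h2 h3 (fun Y => Y) d (fun Y _ => hd Y) with
      ⟨F₃, g1, g2, g3, c, hc⟩ | ⟨F₃, g1, g2, g3, r', d', hN, hd'⟩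
    · refine ⟨F₃, g1.trans h1, g2, g3, P, fun p hp => NT.mono (hP p hp) g1, fun L' hL' => ?_⟩
      rcases List.mem_cons.1 hL' with rfl | hL'
      · exact Or.inl ⟨c, hc⟩
      · rcases h4 L' hL' with ⟨c', hc'⟩ | ⟨p, hp, hp'⟩
        · exact Or.inl ⟨c', fun Y hY => hc' Y (g1 hY)⟩
        · exact Or.inr ⟨p, hp, fun Y hY => hp' Y (g1 hY)⟩
    · refine ⟨F₃, g1.trans h1, g2, g3, (r', d') :: P, fun p hp => ?_, fun L' hL' => ?_⟩
      · rcases List.mem_cons.1 hp with rfl | hp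
        · exact hN
        · exact NT.mono (hP p hp) g1
      · rcases List.mem_cons.1 hL' with rfl | hL'
        · exact Or.inr ⟨(r', d'), List.mem_cons_self, hd'⟩
        · rcases h4 L' hL' with ⟨c', hc'⟩ | ⟨p, hp, hp'⟩
          · exact Or.inl ⟨c', fun Y hY => hc' Y (g1 hY)⟩
          · exact Or.inr ⟨p, List.mem_cons_of_mem _ hp, fun Y hY => hp' Y (g1 hY)⟩

/-- all programs with index at most `m` -/
def upto (m : ℕ) : List Code := (List.range (m + 1)).map (Denumerable.ofNat Code)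

theorem mem_upto {m : ℕ} {c : Code} (h : encode c ≤ m) : c ∈ upto m :=
  List.mem_map.2 ⟨encode c, List.mem_range.2 (by omega), Denumerable.ofNat_encode c⟩

/-- all lists of programs with index at most `m` -/
def uptoL (m : ℕ) : List (List Code) := (List.range (m + 1)).map (Denumerable.ofNat (List Code))

theorem mem_uptoL {m : ℕ} {c : List Code} (h : encode c ≤ m) : c ∈ uptoL m :=
  List.mem_map.2 ⟨encode c, List.mem_range.2 (by omega), Denumerable.ofNat_encode c⟩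

/-- the local form -/
theorem localR (bc : P_BC) (F : Set (ℕ → Bool)) (hFm : MeasurableSet F) (hF : Cof F)
    (R : Finset Code) (hR : R.Nonempty) (z₀ : ℕ → Bool)
    (h : ∀ X ∈ F, le z₀ X → ∀ r ∈ R, ¬ le (ch (W r X)) X) (k : ℕ) :
    ∃ z₁ : ℕ → Bool, ∀ X, le z₁ X → ∀ V : ℕ → Bool, le X V → ∀ e : Code,
      (∀ i j : Code, {c : Code | W e V (encode (i, j, c))}.encard ≤ k) →
      (∀ i j : Code, ∀ Y ∈ F, Red i X Y → Red j Y X →
        ∃ c : Code, W e V (encode (i, j, c)) ∧ ∃ r ∈ R, Red c V (ch (W r Y))) →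
      le (ch (J X)) V := by
  obtain ⟨F₁, h1, h2, h3⟩ := bc F hFm hF
  obtain ⟨z₁, hz₁⟩ := local_list R.toList (by
    intro h4
    rw [Finset.toList_eq_nil] at h4
    exact hR.ne_empty h4) F₁ h2 h3
    (fun r hr => nt_of (z₀ := z₀) fun X hX hz => h X (h1 hX) hz r (Finset.mem_toList.1 hr)) k
  refine ⟨z₁, fun X hX V hV e he hred => hz₁ X hX V hV e he fun i j Y hY hi hj => ?_⟩
  obtain ⟨c, hc, r, hr, hcr⟩ := hred i j Y (h1 hY) hi hj
  exact ⟨c, hc, r, Finset.mem_toList.2 hr, hcr⟩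

/-- arbitrary operations which compute one of boundedly many c.e. operators -/
theorem dichH (bc : P_BC) (F : Set (ℕ → Bool)) (hFm : MeasurableSet F) (hF : Cof F)
    (b : (ℕ → Bool) → ℕ) (hb : Measurable b) (H : (ℕ → Bool) → ℕ → Bool) (z₀ : ℕ → Bool) (k : ℕ)
    (u : Code → Code → Finset Code) (hu : ∀ i j, (u i j).card ≤ k)
    (h : ∀ X ∈ F, le z₀ X → le X (H X) ∧
      (¬ le (H X) X → ∃ r d : Code, encode r ≤ b X ∧ encode d ≤ b X ∧ ¬ le (ch (W r X)) X ∧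
        Red d (H X) (ch (W r X))) ∧
      ∀ i j : Code, ∀ Y ∈ F, Red i X Y → Red j Y X → ∃ c ∈ u i j, Red c (H X) (H Y)) :
    ∃ z, ∀ X ∈ F, le z X → le (H X) X ∨ le (ch (J X)) (H X) := by
  classical
  obtain ⟨m, hm⟩ := exists_const F hF b
  obtain ⟨F₁, h1, h2, h3⟩ := bc _ (hFm.inter (hb (measurableSet_singleton m))) hm
  obtain ⟨F₂, g1, g2, g3, g4⟩ := thin (upto m) F₁ h2 h3
  refine above_list (fun Y hY => (h1 (g1 hY)).1) g2 g3
    ((upto m).filter fun r => NT r F₂) (upto m) (fun r hr => ?_) H z₀ k u hu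
    (fun X hX hz => (h X hX hz).1) (fun X hX hz => (h X hX hz).2.2) fun Y hY hz => ?_
  · simpa using (List.mem_filter.1 hr).2
  · by_cases hHY : le (H Y) Y
    · exact Or.inl hHY
    · right
      obtain ⟨hYF, hYb⟩ := h1 (g1 hY)
      obtain ⟨r, d, hr, hd, h5, h6⟩ := (h Y hYF hz).2.1 hHY
      have hbm : b Y = m := hYb
      rw [hbm] at hr hd
      refine ⟨d, mem_upto hd, r, List.mem_filter.2 ⟨mem_upto hr, ?_⟩, h6⟩
      rcases g4 r (mem_upto hr) with h7 | ⟨c, hc⟩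
      · simpa using h7
      · exact absurd ((le_iff _ _).2 ⟨c, hc Y hY⟩) h5

/-- operations with values of the form `W_r^X` -/
theorem dichW (bc : P_BC) (F : Set (ℕ → Bool)) (hFm : MeasurableSet F) (hF : Cof F)
    (b : (ℕ → Bool) → ℕ) (hb : Measurable b) (H : (ℕ → Bool) → ℕ → Bool) (z₀ : ℕ → Bool) (k : ℕ)
    (u : Code → Code → Finset Code) (hu : ∀ i j, (u i j).card ≤ k)
    (h : ∀ X ∈ F, le z₀ X → le X (H X) ∧ (∃ r : Code, encode r ≤ b X ∧ H X = ch (W r X)) ∧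
      ∀ i j : Code, ∀ Y ∈ F, Red i X Y → Red j Y X → ∃ c ∈ u i j, Red c (H X) (H Y)) :
    ∃ z, ∀ X ∈ F, le z X → le (H X) X ∨ le (ch (J X)) (H X) := by
  obtain ⟨d, hd⟩ := exists_id
  refine dichH bc F hFm hF (fun X => max (b X) (encode d)) (hb.max measurable_const) H z₀ k u hu
    fun X hX hz => ?_
  obtain ⟨h1, ⟨r, hr, hr'⟩, h3⟩ := h X hX hz
  refine ⟨h1, fun h4 => ⟨r, d, hr.trans (le_max_left _ _), le_max_right _ _, ?_, ?_⟩, h3⟩
  · rwa [← hr']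
  · rw [← hr']
    exact hd _

/-- operations with values of the form `rea L X` -/
theorem dichR (bc : P_BC) (F : Set (ℕ → Bool)) (hFm : MeasurableSet F) (hF : Cof F)
    (b : (ℕ → Bool) → ℕ) (hb : Measurable b) (H : (ℕ → Bool) → ℕ → Bool) (z₀ : ℕ → Bool) (k : ℕ)
    (u : Code → Code → Finset Code) (hu : ∀ i j, (u i j).card ≤ k)
    (h : ∀ X ∈ F, le z₀ X → (∃ L : List Code, encode L ≤ b X ∧ H X = rea L X) ∧
      ∀ i j : Code, ∀ Y ∈ F, Red i X Y → Red j Y X → ∃ c ∈ u i j, Red c (H X) (H Y)) :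
    ∃ z, ∀ X ∈ F, le z X → le (H X) X ∨ le (ch (J X)) (H X) := by
  obtain ⟨m, hm⟩ := exists_const F hF b
  obtain ⟨F₁, h1, h2, h3⟩ := bc _ (hFm.inter (hb (measurableSet_singleton m))) hm
  obtain ⟨F₂, g1, g2, g3, P, hP, g4⟩ := thinR (uptoL m) F₁ h2 h3
  refine above_list (fun Y hY => (h1 (g1 hY)).1) g2 g3 (P.map Prod.fst) (P.map Prod.snd)
    (fun r hr => ?_) H z₀ k u hu (fun X hX hz => ?_) (fun X hX hz => (h X hX hz).2)
    fun Y hY hz => ?_
  · obtain ⟨p, hp, rfl⟩ := List.mem_map.1 hr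
    exact hP p hp
  · obtain ⟨⟨L, -, hL⟩, -⟩ := h X hX hz
    obtain ⟨d, hd⟩ := rea_back L
    rw [hL]
    exact (le_iff _ _).2 ⟨d, hd X⟩
  · obtain ⟨hYF, hYb⟩ := h1 (g1 hY)
    obtain ⟨⟨L, hL1, hL⟩, -⟩ := h Y hYF hz
    have hbm : b Y = m := hYb
    rw [hbm] at hL1
    rw [hL]
    rcases g4 L (mem_uptoL hL1) with ⟨c, hc⟩ | ⟨p, hp, hp'⟩
    · exact Or.inl ((le_iff _ _).2 ⟨c, hc Y hY⟩)
    · exact Or.inr ⟨p.2, List.mem_map_of_mem hp, p.1, List.mem_map_of_mem hp, hp' Y hY⟩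

end Pool.Agent.H16R.FS
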