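import Pool.Agent.H16R.FS.Mai
import Pool.Agent.H548R2.Post.Main

/-!
Without a bound for the index there are operations which are constant on each Turing degree.
-/

set_option autoImplicit false

namespace Pool.Agent.H16R.FS

open Nat.Partrec (Code)
open Encodable
open Pool.Agent.H639.LU Pool.Agent.H869R3.FN Pool.Agent.Y579.PP Pool.Agent.R616.DI
open Pool.Agent.Helper446.Defs Pool.Agent.Helper446.Oracle Pool.Agent.H16R.BO

theorem chi_eq (A : ℕ → Bool) : Pool.Agent.Helper446.Defs.chi (St A) =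
    Pool.Agent.Helper227.chi A := by
  funext n
  unfold Pool.Agent.Helper446.Defs.chi Pool.Agent.Helper227.chi
  congr 1
  unfold chiN St
  cases h : A n <;> simp [h]

theorem tle_iff (A B : ℕ → Bool) : Pool.Agent.Helper227.TLe A B ↔ le A B := by
  unfold Pool.Agent.Helper227.TLe le
  rw [chi_eq, chi_eq]

theorem re_we : REPred (fun x : (ℕ × ℕ) × Str =>
    ((Denumerable.ofNat Code x.1.1).eval (encode (x.2, x.1.2))).Dom) := by
  have h : Partrec (fun x : (ℕ × ℕ) × Str =>
      (Denumerable.ofNat Code x.1.1).eval (encode (x.2, x.1.2))) :=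
    Nat.Partrec.Code.eval_part.comp
      ((Computable.ofNat Code).comp (Computable.fst.comp Computable.fst))
      (Computable.encode.comp (Computable.pair Computable.snd
        (Computable.snd.comp Computable.fst)))
  exact h.dom_re

theorem reIn_we (A : ℕ → Bool) :
    REIn (St A) (fun x : ℕ × ℕ => x.2 ∈ Pool.Agent.Helper227.WE A x.1) := by
  rw [K2]
  refine ⟨fun x σ => ((Denumerable.ofNat Code x.1).eval (encode (σ, x.2))).Dom, ?_, fun x => ?_⟩
  · exact re_we
  · exact Iff.rfl

/-- a set c.e. in `Z` is c.e. in all `X` above `Z` -/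
theorem ce_up {Z X : ℕ → Bool} (h : le Z X) {S : ℕ → Prop} (hS : REIn (St Z) S) :
    ∃ r : Code, ∀ n, S n ↔ W r X n := K10 X S (K4.1 Z X h S hS)

theorem exists_const_op : ∃ H : (ℕ → Bool) → ℕ → Bool,
    (∀ X, (∃ r : Code, H X = ch (W r X)) ∧ le X (H X) ∧ ¬ le (H X) X ∧
      ¬ le (ch (J X)) (H X)) ∧
    ∀ X Y, le X Y → le Y X → H X = H Y := by
  classical
  obtain ⟨e, he, -⟩ := Pool.Agent.H548R2.Post.main (fun _ _ => false)
    ((Computable.const false : Computable (fun _ : ℕ × ℕ => false)))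
  let S : Setoid (ℕ → Bool) :=
    { r := fun X Y => le X Y ∧ le Y X
      iseqv := ⟨fun X => ⟨le_refl' X, le_refl' X⟩, fun h => ⟨h.2, h.1⟩,
        fun h1 h2 => ⟨le_trans' h1.1 h2.1, le_trans' h2.2 h1.2⟩⟩ }
  let rep : (ℕ → Bool) → ℕ → Bool := fun X => Quotient.out (Quotient.mk S X)
  have hrep : ∀ X, le (rep X) X ∧ le X (rep X) := fun X =>
    Quotient.exact (Quotient.out_eq (Quotient.mk S X))
  have hrep' : ∀ X Y, le X Y → le Y X → rep X = rep Y := by
    intro X Y h1 h2
    have h3 : Quotient.mk S X = Quotient.mk S Y := Quotient.sound ⟨h1, h2⟩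
    show Quotient.out (Quotient.mk S X) = Quotient.out (Quotient.mk S Y)
    rw [h3]
  refine ⟨fun X => Pool.Agent.H548R2.Post.chr (Pool.Agent.Helper227.WE (rep X) e), fun X => ?_,
    fun X Y h1 h2 => ?_⟩
  · obtain ⟨h1, h2⟩ := hrep X
    obtain ⟨g1, g2, -, g4, -⟩ := he (rep X)
    rw [tle_iff] at g1 g2 g4
    refine ⟨?_, le_trans' h2 g1, fun h => g2 (le_trans' h h2), fun h => g4 (le_trans' ?_ h)⟩
    · have h3 : REIn (St (rep X)) (fun n : ℕ => n ∈ Pool.Agent.Helper227.WE (rep X) e) :=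
        REIn.comp (S := fun x : ℕ × ℕ => x.2 ∈ Pool.Agent.Helper227.WE (rep X) x.1)
          (reIn_we (rep X)) (f := fun n : ℕ => (e, n)) (by fun_prop)
      obtain ⟨r, hr⟩ := ce_up h1 h3
      refine ⟨r, funext fun n => ?_⟩
      rw [Bool.eq_iff_iff, ch_true, ← hr n]
      unfold Pool.Agent.H548R2.Post.chr
      simp
    · have h3 : REIn (St (rep X)) (fun n : ℕ => n ∈ Pool.Agent.Helper227.WE (rep X) n) :=
        REIn.comp (S := fun x : ℕ × ℕ => x.2 ∈ Pool.Agent.Helper227.WE (rep X) x.1)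
          (reIn_we (rep X)) (f := fun n : ℕ => (n, n)) (by fun_prop)
      obtain ⟨r, hr⟩ := ce_up h1 h3
      have h4 : Pool.Agent.Helper227.jump (rep X) = ch (W r X) := by
        funext n
        rw [Bool.eq_iff_iff, ch_true, ← hr n]
        exact Pool.Agent.Helper227.jump_eq_true
      rw [h4]
      exact w_le_jump r X
  · simp only [hrep' X Y h1 h2]

end Pool.Agent.H16R.FS
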